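import Pool.Agent.W275.UB.Stm

/-!
# UB-TAIL: bounded tails
-/

set_option autoImplicit false

namespace Pool.Agent.W366.UB.Tail

open MvPolynomial Pool.Agent.H936R2 Pool.Agent.H927R2.RD H294UB Pool.Agent.W275.UB

variable {A : Type} [CommRing A] {n : ℕ}

lemma cong_pt (P : Fin n → MvPolynomial (Fin n) A) (π : A) (j : ℕ) (x y : Fin n → A)
    (h : Cong π j x y) : Cong π j (pt P x) (pt P y) := by
  intro i
  have h1 : (Ideal.Quotient.mk (Ideal.span {π ^ j})) (eval x (P i)) =
      (Ideal.Quotient.mk (Ideal.span {π ^ j})) (eval y (P i)) := by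
    rw [← eval₂_id, ← eval₂_id, hom_eval₂, hom_eval₂]
    congr 1
    funext l
    rw [Ideal.Quotient.eq, Ideal.mem_span_singleton]
    exact h l
  rw [Ideal.Quotient.eq, Ideal.mem_span_singleton] at h1
  exact h1

lemma cong_iter (P : Fin n → MvPolynomial (Fin n) A) (π : A) (j m : ℕ) (x y : Fin n → A)
    (h : Cong π j x y) : Cong π j ((pt P)^[m] x) ((pt P)^[m] y) := by
  induction m with
  | zero => exact h
  | succ m ih =>
    rw [Function.iterate_succ_apply', Function.iterate_succ_apply']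
    exact cong_pt P π j _ _ ih

lemma unit_of_prim {x y : Fin n → A} {c : A} (hy : Prim y) (h : y = c • x) : IsUnit c := by
  obtain ⟨i, hi⟩ := hy
  rw [h, Pi.smul_apply, smul_eq_mul] at hi
  exact isUnit_of_mul_isUnit_left hi

lemma prim_iter {P : Fin n → MvPolynomial (Fin n) A} (hP : Good P) {x : Fin n → A} (hx : Prim x)
    (k : ℕ) : Prim ((pt P)^[k] x) := by
  induction k with
  | zero => exact hx
  | succ k ih =>
    rw [Function.iterate_succ_apply']
    exact hP _ ih

theorem main : S_eul → S_disc → S_tail := by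
  intro hE hD A _ _ _ _ π hπ n d V w hd P hP hgood hfin hcard z hz hper hyp
  obtain ⟨hsm, -, -, -⟩ := hE A n d P hP
  have hprim : ∀ k, Prim ((pt P)^[k] z) := prim_iter hgood hz
  -- the property
  obtain ⟨Q, hQ⟩ : ∃ Q : ℕ → Prop, Q = fun τ => ∃ c : A, (pt P)^[τ + 1] z = c • (pt P)^[τ] z :=
    ⟨_, rfl⟩
  have hQs : ∀ τ, Q τ → Q (τ + 1) := by
    intro τ h
    rw [hQ] at h ⊢
    obtain ⟨c, hc⟩ := h
    refine ⟨c ^ d, ?_⟩
    rw [Function.iterate_succ_apply', hc, hsm, ← Function.iterate_succ_apply' (pt P)]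
    rw [hc]
  have hQmono : ∀ τ τ', τ ≤ τ' → Q τ → Q τ' := by
    intro τ τ' hle h
    induction τ', hle using Nat.le_induction with
    | base => exact h
    | succ k _ ih => exact hQs k ih
  have hex : ∃ τ, Q τ := by
    obtain ⟨a, b, hab, c, hc⟩ := hper
    refine ⟨a, ?_⟩
    have h1 : Per P ((pt P)^[a] z) := by
      refine ⟨b - a, by omega, c, ?_⟩
      rw [← Function.iterate_add_apply, show b - a + a = b by omega]
      exact hc
    obtain ⟨⟨c', hc'⟩, -⟩ := hyp a h1
    rw [hQ]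
    exact ⟨c', by rw [Function.iterate_succ_apply']; exact hc'⟩
  classical
  obtain ⟨τ, hτ, hmin⟩ : ∃ τ, Q τ ∧ ∀ k, k < τ → ¬ Q k :=
    ⟨Nat.find hex, Nat.find_spec hex, fun k hk => Nat.find_min hex hk⟩
  have hle : τ ≤ w := by
    by_contra hcon
    push Not at hcon
    -- two congruent vectors
    have : Finite (A ⧸ Ideal.span {π ^ (V + 1)}) := hfin
    have := Fintype.ofFinite (A ⧸ Ideal.span {π ^ (V + 1)})
    obtain ⟨i, j, hij, hcong⟩ : ∃ i j : ℕ, i < j ∧ j ≤ w ∧
        Cong π (V + 1) ((pt P)^[i] z) ((pt P)^[j] z) := by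
      have hlt : Fintype.card (Fin n → A ⧸ Ideal.span {π ^ (V + 1)}) <
          Fintype.card (Fin (w + 1)) := by
        rw [Fintype.card_fun, Fintype.card_fin, Fintype.card_fin, ← Nat.card_eq_fintype_card]
        omega
      obtain ⟨i, j, hij, h⟩ := Fintype.exists_ne_map_eq_of_card_lt
        (fun (i : Fin (w + 1)) (l : Fin n) =>
          Ideal.Quotient.mk (Ideal.span {π ^ (V + 1)}) ((pt P)^[(i : ℕ)] z l)) hlt
      have hc : ∀ a b : Fin (w + 1), (fun l : Fin n =>
          Ideal.Quotient.mk (Ideal.span {π ^ (V + 1)}) ((pt P)^[(a : ℕ)] z l)) =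
          (fun l => Ideal.Quotient.mk (Ideal.span {π ^ (V + 1)}) ((pt P)^[(b : ℕ)] z l)) →
          Cong π (V + 1) ((pt P)^[(a : ℕ)] z) ((pt P)^[(b : ℕ)] z) := by
        intro a b hab l
        have := congrFun hab l
        rwa [Ideal.Quotient.eq, Ideal.mem_span_singleton] at this
      rcases lt_or_gt_of_ne hij with h1 | h1
      · exact ⟨i, j, h1, by have := j.2; omega, hc i j h⟩
      · exact ⟨j, i, h1, by have := i.2; omega, hc j i h.symm⟩
    obtain ⟨hjw, hcong⟩ := hcong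
    have h1 := cong_iter P π (V + 1) (τ - j + (τ - 1 - (i + τ - j))) _ _ hcong
    rw [← Function.iterate_add_apply, ← Function.iterate_add_apply] at h1
    have e1 : τ - j + (τ - 1 - (i + τ - j)) + i = τ - 1 := by omega
    have e2 : τ - j + (τ - 1 - (i + τ - j)) + j = (τ - 1 - (i + τ - j)) + τ := by omega
    rw [e1, e2] at h1
    have hfix : ∀ k, ∃ c : A, (pt P)^[k + τ] z = c • (pt P)^[τ] z := by
      intro k
      induction k with
      | zero => exact ⟨1, by rw [zero_add, one_smul]⟩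
      | succ k ih =>
        obtain ⟨c, hc⟩ := ih
        rw [hQ] at hτ
        obtain ⟨c0, hc0⟩ := hτ
        refine ⟨c ^ d * c0, ?_⟩
        rw [show k + 1 + τ = (k + τ) + 1 by ring, Function.iterate_succ_apply', hc, hsm,
          ← Function.iterate_succ_apply' (pt P), hc0, smul_smul]
    obtain ⟨ck, hck⟩ := hfix (τ - 1 - (i + τ - j))
    have hcku : IsUnit ck := unit_of_prim (hprim _) hck
    obtain ⟨v, hv⟩ := hcku
    rw [hck] at h1
    have hτ' := hτ
    rw [hQ] at hτ'
    obtain ⟨c0, hc0⟩ := hτ'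
    have hc0u : IsUnit c0 := unit_of_prim (hprim _) hc0
    have hstep : (pt P)^[τ] z = pt P ((pt P)^[τ - 1] z) := by
      rw [← Function.iterate_succ_apply' (pt P), show (τ - 1).succ = τ by omega]
    have hPx : pt P ((pt P)^[τ] z) = c0 • (pt P)^[τ] z := by
      rw [← Function.iterate_succ_apply' (pt P)]
      exact hc0
    obtain ⟨-, hjac⟩ := hyp τ ⟨1, one_pos, c0, by rw [Function.iterate_one]; exact hPx⟩
    obtain ⟨u, hu, hy⟩ := hD A π hπ n d V hd P hP ((pt P)^[τ] z)
      (((v⁻¹ : Aˣ) : A) • (pt P)^[τ - 1] z) c0 (((v⁻¹ : Aˣ) : A) ^ d) (hprim τ) hc0u hPx hjac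
      (by
        intro l
        have h2 := h1 l
        rw [Pi.smul_apply, smul_eq_mul, ← hv] at h2
        rw [Pi.smul_apply, smul_eq_mul]
        have e3 : ((v⁻¹ : Aˣ) : A) * (pt P)^[τ - 1] z l - (pt P)^[τ] z l =
            ((v⁻¹ : Aˣ) : A) * ((pt P)^[τ - 1] z l - (v : A) * (pt P)^[τ] z l) := by
          rw [mul_sub, ← mul_assoc ((v⁻¹ : Aˣ) : A) (v : A), Units.inv_mul, one_mul]
        rw [e3]
        exact h2.mul_left _)
      (by rw [hsm, ← hstep])
    apply hmin (τ - 1) (by omega)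
    rw [hQ]
    obtain ⟨u', hu'⟩ := hu
    refine ⟨((u'⁻¹ : Aˣ) : A) * ((v⁻¹ : Aˣ) : A), ?_⟩
    rw [show τ - 1 + 1 = τ by omega, ← smul_smul, hy, ← hu', smul_smul, Units.inv_mul, one_smul]
  have hw := hQmono τ w hle hτ
  rw [hQ] at hw
  obtain ⟨c, hc⟩ := hw
  exact ⟨c, unit_of_prim (hprim _) hc, hc⟩

end Pool.Agent.W366.UB.Tail
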